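import Mathlib

/-!
Functions on a module which are additive on every line.

* `Lna O D`: `D` is affine on every line.
* `df2 D x y`: the second difference at `0`.
* `df3_zero`: if `2 D = 0` and `O` contains a primitive third root of unity, the third difference of `D` is `0`.
-/

namespace GX

section q2a

variable {O X A : Type} [CommRing O] [AddCommGroup X] [Module O X] [AddCommGroup A]

/-- Affine on every line. -/
def Lna (O : Type) {X A : Type} [CommRing O] [AddCommGroup X] [Module O X] [AddCommGroup A]
    (D : X → A) : Prop :=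
  ∀ (x y : X) (a b : O), D (x + (a + b) • y) + D x = D (x + a • y) + D (x + b • y)

/-- The second difference at `0`. -/
def df2 (D : X → A) (x y : X) : A := D (x + y) - D x - D y + D 0

variable {D : X → A}

theorem df2_comm (x y : X) : df2 D x y = df2 D y x := by
  unfold df2
  rw [add_comm x y]
  abel

theorem lna_shift (h : Lna O D) (w : X) : Lna O fun v => D (w + v) := by
  intro x y a b
  have h1 := h (w + x) y a b
  simp only [add_assoc] at h1
  exact h1

theorem df2_add (h : Lna O D) (x y : X) (a b : O) :
    df2 D x ((a + b) • y) = df2 D x (a • y) + df2 D x (b • y) := by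
  have h1 := eq_sub_of_add_eq (h x y a b)
  have h2 := h 0 y a b
  simp only [zero_add] at h2
  have h3 := eq_sub_of_add_eq h2
  unfold df2
  rw [h1, h3]
  abel

theorem df2_addl (h : Lna O D) (x y : X) (a b : O) :
    df2 D ((a + b) • x) y = df2 D (a • x) y + df2 D (b • x) y := by
  rw [df2_comm, df2_add h, df2_comm y, df2_comm y]

theorem df2_expand (x y : X) : D (x + y) = df2 D x y + D x + D y - D 0 := by
  unfold df2
  abel

theorem df2_quad (h : Lna O D) (x y : X) (a b : O) :
    df2 D ((a + b) • x) ((a + b) • y) = df2 D (a • x) (a • y) + df2 D (b • x) (b • y) +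
      (df2 D (a • x) (b • y) + df2 D (b • x) (a • y)) := by
  rw [df2_addl h, df2_add h, df2_add h]
  abel

/-- Along the line of `x + y`. -/
theorem df2_skew (h : Lna O D) (x y : X) (a b : O) :
    df2 D (a • x) (b • y) + df2 D (b • x) (a • y) = 0 := by
  have h1 := h 0 (x + y) a b
  simp only [zero_add, smul_add] at h1
  rw [df2_expand (D := D) ((a + b) • x), df2_expand (D := D) (a • x),
    df2_expand (D := D) (b • x), df2_quad h] at h1
  have h2 := h 0 x a b
  have h3 := h 0 y a b
  simp only [zero_add] at h2 h3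
  rw [eq_sub_of_add_eq h2, eq_sub_of_add_eq h3] at h1
  have h4 : df2 D (a • x) (b • y) + df2 D (b • x) (a • y) =
      (df2 D (a • x) (a • y) + df2 D (b • x) (b • y) +
        (df2 D (a • x) (b • y) + df2 D (b • x) (a • y)) + (D (a • x) + D (b • x) - D 0) +
        (D (a • y) + D (b • y) - D 0) - D 0 + D 0) -
      (df2 D (a • x) (a • y) + D (a • x) + D (a • y) - D 0 +
        (df2 D (b • x) (b • y) + D (b • x) + D (b • y) - D 0)) := by
    abel
  rw [h4, h1, sub_self]

theorem df2_two (h2 : ∀ x, D x + D x = 0) (x y : X) : df2 D x y + df2 D x y = 0 := by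
  have h : df2 D x y + df2 D x y = (D (x + y) + D (x + y)) - (D x + D x) - (D y + D y) +
      (D 0 + D 0) := by
    unfold df2
    abel
  rw [h, h2, h2, h2, h2]
  simp

/-- Balanced. -/
theorem df2_bal (h : Lna O D) (h2 : ∀ x, D x + D x = 0) (x y : X) (a b : O) :
    df2 D (a • x) (b • y) = df2 D (b • x) (a • y) := by
  have h3 := df2_skew h x y a b
  have h4 := df2_two h2 (b • x) (a • y)
  have h5 : df2 D (a • x) (b • y) = (df2 D (a • x) (b • y) + df2 D (b • x) (a • y)) -
      (df2 D (b • x) (a • y) + df2 D (b • x) (a • y)) + df2 D (b • x) (a • y) := by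
    abel
  rw [h5, h3, h4, sub_zero, zero_add]

theorem df2_one (h : Lna O D) (h2 : ∀ x, D x + D x = 0) (x y : X) (a : O) :
    df2 D (a • x) y = df2 D x (a • y) := by
  have h3 := df2_bal h h2 x y a 1
  rwa [one_smul, one_smul] at h3

/-- The third difference. -/
def df3 (D : X → A) (w x y : X) : A := df2 (fun v => D (w + v)) x y - df2 D x y

theorem df3_expand (w x y : X) : D (w + x + y) = df3 D w x y + df2 D w x + df2 D w y + df2 D x y +
    D w + D x + D y - D 0 - D 0 := by
  unfold df3 df2
  simp only [add_zero, add_assoc]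
  abel

theorem df3_swap (w x y : X) : df3 D w x y = df3 D x w y := by
  unfold df3 df2
  have h1 : w + (x + y) = x + (w + y) := by abel
  simp only [add_zero]
  rw [h1, add_comm w x]
  abel

theorem df3_comm (w x y : X) : df3 D w x y = df3 D w y x := by
  unfold df3
  rw [df2_comm x y, df2_comm x y]

theorem df3_one (h : Lna O D) (h2 : ∀ x, D x + D x = 0) (w x y : X) (a : O) :
    df3 D w (a • x) y = df3 D w x (a • y) := by
  unfold df3
  rw [df2_one h h2, df2_one (lna_shift h w) fun v => h2 (w + v)]

theorem df3_add (h : Lna O D) (w x y : X) (a b : O) :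
    df3 D w x ((a + b) • y) = df3 D w x (a • y) + df3 D w x (b • y) := by
  unfold df3
  rw [df2_add h, df2_add (lna_shift h w)]
  abel

theorem df3_cube (h : Lna O D) (h2 : ∀ x, D x + D x = 0) (w x y : X) (a : O) :
    df3 D (a • w) (a • x) (a • y) = df3 D w x (a ^ 3 • y) := by
  rw [df3_one h h2, df3_swap, df3_one h h2, df3_swap, smul_smul, smul_smul]
  congr 2
  ring

/-- Along the line of `w + x + y`. -/
theorem df3_cubic (h : Lna O D) (w x y : X) (a b : O) :
    df3 D ((a + b) • w) ((a + b) • x) ((a + b) • y) = df3 D (a • w) (a • x) (a • y) +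
      df3 D (b • w) (b • x) (b • y) := by
  have h1 := h 0 (w + x + y) a b
  simp only [zero_add, smul_add] at h1
  rw [df3_expand (D := D) ((a + b) • w), df3_expand (D := D) (a • w),
    df3_expand (D := D) (b • w), df2_quad h, df2_quad h, df2_quad h, df2_skew h, df2_skew h,
    df2_skew h] at h1
  have h2 := h 0 w a b
  have h3 := h 0 x a b
  have h4 := h 0 y a b
  simp only [zero_add] at h2 h3 h4
  rw [eq_sub_of_add_eq h2, eq_sub_of_add_eq h3, eq_sub_of_add_eq h4] at h1
  simp only [add_zero] at h1
  rw [← sub_eq_zero] at h1 ⊢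
  rw [← h1]
  abel

/-- **The third difference is `0`.** -/
theorem df3_zero (h : Lna O D) (h2 : ∀ x, D x + D x = 0) {ζ : O} (hζ : ζ ^ 2 + ζ + 1 = 0)
    (w x y : X) : df3 D w x y = 0 := by
  have h3 := df3_cubic h w x y ζ 1
  rw [df3_cube h h2, df3_cube h h2, df3_cube h h2] at h3
  have e1 : (ζ + 1) ^ 3 = ζ ^ 3 + 1 ^ 3 + (-1 + (-1 + -1)) := by
    linear_combination 3 * hζ
  rw [e1, df3_add h, df3_add h, add_eq_left] at h3
  have h4 : ∀ v : X, df3 D w x v + df3 D w x v = 0 := by
    intro v
    have h5 := df2_two h2 x v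
    have h6 := df2_two (D := fun v => D (w + v)) (fun v => h2 (w + v)) x v
    have h7 : df3 D w x v + df3 D w x v =
        (df2 (fun v => D (w + v)) x v + df2 (fun v => D (w + v)) x v) -
          (df2 D x v + df2 D x v) := by
      unfold df3
      abel
    rw [h7, h5, h6, sub_zero]
  rw [df3_add h, df3_add h, h4, add_zero] at h3
  have h5 := df3_add h w x y (-1) 1
  rw [neg_add_cancel, zero_smul, one_smul, h3, zero_add] at h5
  rw [← h5]
  unfold df3 df2
  simp only [add_zero]
  abel

end q2a

end GX
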