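import Pool.Agent.Lib.MP_f80667_ag.Lv.Ko.F1

/-!
The values `Tk` for every `p`.

* `tk_ch`: the value of a sum.
* `tk_line`: `Tk` is affine on every line modulo `Vl (s + 1)`.
* `tk_ad`: for `2 ≤ s` it is additive modulo `Vl (s + 1)`.
-/

open ZC BE PE CV IntermediateField

namespace GX

variable {F : Type} [Field F] {N d : ℕ} {ι : Type} {f : ι → MvPolynomial (Fin N) F} {K Ω : Type}
  [Field K] [CharZero K] [Field Ω] [Algebra K Ω] [Algebra F K] [Algebra F Ω]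
  [IsScalarTower F K Ω] [IsAlgClosure K Ω] {L : Ld K Ω} {ψ : Prj K N d} {π : Ω} {k s : ℕ}
  {n : ℕ} {c u u' x x' : Fin (d + 1) → Ω} {w : Ω} {M : IntermediateField K Ω}

omit [CharZero K] [IsAlgClosure K Ω] in
theorem q2_add {a b : Fin (d + 1) → Ω} (ha : Iv L M a) (hb : Iv L M b) : Iv L M (a + b) :=
  fun i => ⟨add_mem (ha i).1 (hb i).1, (L.add _ _).trans (max_le (ha i).2 (hb i).2)⟩

omit [CharZero K] [IsAlgClosure K Ω] in
theorem q2_smul {a : Ω} {b : Fin (d + 1) → Ω} (ha : a ∈ M) (ha1 : L.nm a ≤ 1) (hb : Iv L M b) :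
    Iv L M (a • b) := fun i => by
  rw [Pi.smul_apply, smul_eq_mul, L.mul]
  exact ⟨mul_mem ha (hb i).1, mul_le_one₀ ha1 (L.nonneg _) (hb i).2⟩

omit [CharZero K] [IsAlgClosure K Ω] in
theorem q2_neg {a : Fin (d + 1) → Ω} (ha : Iv L M a) : Iv L M (-a) := fun i => by
  rw [Pi.neg_apply, L.neg]
  exact ⟨neg_mem (ha i).1, (ha i).2⟩

omit [CharZero K] [IsAlgClosure K Ω] in
/-- A displacement of level `s`. -/
theorem q2_pi (hπ : Uf L π) (hu : Iv L M u) (hs : s ≠ 0) :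
    Iv L M (π ^ s • u) ∧ (∀ r, L.nm ((π ^ s • u) r) ≤ L.nm π ^ s) ∧
      ∀ r, L.nm ((π ^ s • u) r) < 1 := by
  have h1 : ∀ r, L.nm ((π ^ s • u) r) ≤ L.nm π ^ s := fun r => by
    rw [Pi.smul_apply, smul_eq_mul, L.mul, L.pow]
    exact mul_le_of_le_one_right (pow_nonneg hπ.pos.le s) (hu r).2
  exact ⟨fun r => ⟨mul_mem (pow_mem (hπ.mem _) s) (hu r).1,
    (h1 r).trans (pow_le_one₀ hπ.pos.le hπ.lt.le)⟩, h1, fun r => (h1 r).trans_lt (hπ.pow_lt hs)⟩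

theorem q2_gp (hπ : Uf L π) (hψ : Pj f L ψ) (g : Gp L ψ M c w) (hx : Iv L M x) (hs : s ≠ 0) :
    Gp L ψ M (c + π ^ s • x) (sht L ψ w (c + π ^ s • x)) := by
  obtain ⟨h1, h2, -⟩ := q2_pi hπ hx hs
  exact (g.sh hψ h1 (hπ.pow_lt hs) h2).1

/-- The sheet over a point near a point near `c`. -/
theorem q2_sht (hπ : Uf L π) (hψ : Pj f L ψ) (g : Gp L ψ M c w) (hx : Iv L M x)
    (hx' : Iv L M x') {s s' : ℕ} (hs : s ≠ 0) (hs' : s' ≠ 0) :
    sht L ψ (sht L ψ w (c + π ^ s • x)) (c + π ^ s' • x') = sht L ψ w (c + π ^ s' • x') := by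
  obtain ⟨h1, -, h3⟩ := q2_pi hπ hx hs
  obtain ⟨h1', -, h3'⟩ := q2_pi hπ hx' hs'
  exact sht_sht hψ g h1 h1' h3 h3'

theorem tk_zero (hψ : Pj f L ψ) (g : Gp L ψ (L.Ur ⊥ n) c w) : Tk f L ψ π s n c w 0 = 0 := by
  unfold Tk
  rw [smul_zero]
  exact cyv_zero hψ g

/-- The value of a sum. -/
theorem tk_ch (hπ : Uf L π) (hψ : Pj f L ψ) (hn : n ≠ 0) (g : Gp L ψ (L.Ur ⊥ n) c w)
    (hx : Iv L (L.Ur ⊥ n) x) (hu : Iv L (L.Ur ⊥ n) u) (hs : s ≠ 0) :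
    Tk f L ψ π s n c w (x + u) = Tk f L ψ π s n c w x +
      Tk f L ψ π s n (c + π ^ s • x) (sht L ψ w (c + π ^ s • x)) u := by
  have hM : Um L (L.Ur ⊥ n) := ⟨n, hn, le_rfl⟩
  have hfd : FiniteDimensional K (L.Ur ⊥ n) := hM.fd
  obtain ⟨h1, -, h3⟩ := q2_pi hπ hx hs
  obtain ⟨h1', -, h3'⟩ := q2_pi hπ hu hs
  unfold Tk
  rw [smul_add]
  exact cyv_add hψ g h1 h1' h3 h3'

/-- Parallel displacements of level `s`. -/
theorem tk_pa (hπ : Uf L π) (hψ : Pj f L ψ) (hn : n ≠ 0) (g : Gp L ψ (L.Ur ⊥ n) c w)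
    (hu : Iv L (L.Ur ⊥ n) u) {a b : Ω} (ha : a ∈ L.Ur ⊥ n) (ha1 : L.nm a ≤ 1)
    (hb : b ∈ L.Ur ⊥ n) (hb1 : L.nm b ≤ 1) (hs : s ≠ 0) :
    Tk f L ψ π s n (c + π ^ s • (a • u)) (sht L ψ w (c + π ^ s • (a • u))) (b • u) -
      Tk f L ψ π s n c w (b • u) ∈ Vl f L π (s + 1) := by
  have h1 : ∀ {a : Ω}, L.nm a ≤ 1 → L.nm (π ^ s * a) ≤ L.nm π ^ s := fun ha1 => by
    rw [L.mul, L.pow]
    exact mul_le_of_le_one_right (pow_nonneg hπ.pos.le s) ha1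
  have h2 := cyv_par hπ hψ ⟨n, hn, le_rfl⟩ g (mul_mem (pow_mem (hπ.mem _) s) ha)
    (mul_mem (pow_mem (hπ.mem _) s) hb) hu hs hs (h1 ha1) (h1 hb1)
  rw [← smul_smul, ← smul_smul] at h2
  exact vl_anti hπ (by omega : s + 1 ≤ s + s) h2

/-- **Affine on every line.** -/
theorem tk_line (hπ : Uf L π) (hψ : Pj f L ψ) (hn : n ≠ 0) (g : Gp L ψ (L.Ur ⊥ n) c w)
    (hx : Iv L (L.Ur ⊥ n) x) (hu : Iv L (L.Ur ⊥ n) u) {a b : Ω} (ha : a ∈ L.Ur ⊥ n)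
    (ha1 : L.nm a ≤ 1) (hb : b ∈ L.Ur ⊥ n) (hb1 : L.nm b ≤ 1) (hs : s ≠ 0) :
    Tk f L ψ π s n c w (x + (a + b) • u) + Tk f L ψ π s n c w x -
      (Tk f L ψ π s n c w (x + a • u) + Tk f L ψ π s n c w (x + b • u)) ∈ Vl f L π (s + 1) := by
  have hau := q2_smul ha ha1 hu
  have hbu := q2_smul hb hb1 hu
  have hxa := q2_add hx hau
  have g1 := q2_gp hπ hψ g hx hs
  have h1 := tk_pa hπ hψ hn g1 hu ha ha1 hb hb1 hs
  have e1 : c + π ^ s • x + π ^ s • a • u = c + π ^ s • (x + a • u) := by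
    rw [smul_add, add_assoc]
  rw [e1, q2_sht hπ hψ g hx hxa hs hs] at h1
  have h2 := tk_ch hπ hψ hn g hxa hbu hs
  have h3 := tk_ch hπ hψ hn g hx hbu hs
  have e2 : x + (a + b) • u = x + a • u + b • u := by
    rw [add_smul, add_assoc]
  rw [e2, h2, h3]
  have e3 : ∀ A B C D : (Xf f).pt Ω →₀ ℤ, A + B + C - (A + (C + D)) = B - D := by
    intro A B C D
    abel
  rw [e3]
  exact h1

/-- **Additive for `2 ≤ s`**, every `p`. Proof: `T (c + π h; h + g) = T (c - π g; h + g)` (`tk_par`), `tk_ch`, `tk_par`: `T (c + π (1 + π ^ (s - 1)) h; g) - T (c; g) = T (c - π (1 - π ^ (s - 1)) g; h) - T (c; h)`,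
and this is `0` for `h = π h'` (`tk_pi`). -/
theorem tk_ad (hπ : Uf L π) (hψ : Pj f L ψ) (hn : n ≠ 0) (g : Gp L ψ (L.Ur ⊥ n) c w)
    (hx : Iv L (L.Ur ⊥ n) x) (hu : Iv L (L.Ur ⊥ n) u) (hs : 2 ≤ s) :
    Tk f L ψ π s n c w (x + u) - Tk f L ψ π s n c w x - Tk f L ψ π s n c w u ∈
      Vl f L π (s + 1) := by
  obtain ⟨m, rfl⟩ : ∃ m, s = m + 2 := ⟨s - 2, by omega⟩
  have hs0 : m + 2 ≠ 0 := by omega
  have hπM : π ∈ L.Ur ⊥ n := hπ.mem _
  -- the unit `1 + π ^ (m + 1)`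
  obtain ⟨e, he⟩ : ∃ e : Ω, e = 1 + π ^ (m + 1) := ⟨_, rfl⟩
  have heM : e ∈ L.Ur ⊥ n := by
    rw [he]
    exact add_mem (one_mem _) (pow_mem hπM _)
  have hp1 : L.nm (π ^ (m + 1)) < 1 := by
    rw [L.pow]
    exact hπ.pow_lt (Nat.succ_ne_zero m)
  have he1 : L.nm e = 1 := by
    rw [he]
    have h1 := L.add (1 + π ^ (m + 1)) (-π ^ (m + 1))
    have h2 := L.add 1 (π ^ (m + 1))
    rw [add_neg_cancel_right, L.one, L.neg] at h1
    rw [L.one] at h2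
    have h3 : (1 : ℝ) ≤ L.nm (1 + π ^ (m + 1)) := by
      rcases le_max_iff.1 h1 with h | h
      · exact h
      · exact absurd h (not_le.2 hp1)
    exact le_antisymm (h2.trans (max_le le_rfl hp1.le)) h3
  have he0 : e ≠ 0 := L.ne_zero (by rw [he1]; exact zero_lt_one)
  -- `h = π h'`, `π (1 + π ^ (m + 1)) h = π ^ (m + 2) x`
  obtain ⟨h, hh⟩ : ∃ h : Fin (d + 1) → Ω, h = (π ^ m * e⁻¹) • x := ⟨_, rfl⟩
  have hhI : Iv L (L.Ur ⊥ n) h := by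
    rw [hh]
    refine q2_smul (mul_mem (pow_mem hπM m) (inv_mem heM)) ?_ hx
    rw [L.mul, L.inv, he1, inv_one, mul_one, L.pow]
    exact pow_le_one₀ hπ.pos.le hπ.lt.le
  have hph : Iv L (L.Ur ⊥ n) (π • h) := q2_smul hπM hπ.lt.le hhI
  have hpp : Iv L (L.Ur ⊥ n) (π • h + u) := q2_add hph hu
  have hnu : Iv L (L.Ur ⊥ n) (-u) := q2_neg hu
  have h1m : (-1 : Ω) ∈ L.Ur ⊥ n := neg_mem (one_mem _)
  have h1n : L.nm (-1 : Ω) ≤ 1 := by
    rw [L.neg, L.one]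
  have h10 : (1 : ℕ) ≠ 0 := one_ne_zero
  have h1o : L.nm (1 : Ω) ≤ 1 := L.one.le
  -- the base `c + π (π h)`
  have g1 : Gp L ψ (L.Ur ⊥ n) (c + π • (π • h)) (sht L ψ w (c + π • (π • h))) := by
    have g0 := q2_gp hπ hψ g hph h10
    rwa [pow_one] at g0
  have g2 : Gp L ψ (L.Ur ⊥ n) (c + π • -u) (sht L ψ w (c + π • -u)) := by
    have g0 := q2_gp hπ hψ g hnu h10
    rwa [pow_one] at g0
  -- (1) parallel displacement in the direction `π h + u`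
  have P1 := tk_par (s := m + 2) hπ hψ hn g1 hpp h1m h1n hs0
  have e1 : c + π • (π • h) + π • ((-1 : Ω) • (π • h + u)) = c + π • -u := by
    funext i
    simp only [Pi.add_apply, Pi.smul_apply, Pi.neg_apply, smul_eq_mul]
    ring
  have e2 : sht L ψ (sht L ψ w (c + π • (π • h))) (c + π • -u) = sht L ψ w (c + π • -u) := by
    have h0 := q2_sht hπ hψ g hph hnu h10 h10
    rwa [pow_one] at h0
  rw [e1, e2] at P1
  -- (2) parallel displacements in the directions `π h` and `u`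
  have P2 := tk_par (s := m + 2) hπ hψ hn g hph (one_mem _) h1o hs0
  rw [one_smul] at P2
  have P3 := tk_par (s := m + 2) hπ hψ hn g hu h1m h1n hs0
  have e3 : c + π • ((-1 : Ω) • u) = c + π • -u := by rw [neg_one_smul]
  rw [e3] at P3
  -- (3) the sums
  have C1 := tk_ch hπ hψ hn g1 hph hu hs0
  have C2 := tk_ch hπ hψ hn g2 hu hph hs0
  -- the point `c + π (π h) + π ^ (m + 2) (π h) = c + π ^ (m + 2) x'`, `x' = x`
  have e4 : c + π • (π • h) + π ^ (m + 2) • (π • h) = c + π ^ (m + 2) • x := by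
    have h5 : ∀ i, e * h i = π ^ m * x i := fun i => by
      rw [hh, Pi.smul_apply, smul_eq_mul]
      field_simp
    funext i
    simp only [Pi.add_apply, Pi.smul_apply, smul_eq_mul]
    have h6 := h5 i
    rw [he] at h6
    linear_combination π ^ 2 * h6
  have e5 : sht L ψ (sht L ψ w (c + π • (π • h))) (c + π ^ (m + 2) • x) =
      sht L ψ w (c + π ^ (m + 2) • x) := by
    have h0 := q2_sht hπ hψ g hph hx h10 hs0
    rwa [pow_one] at h0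
  rw [e4, e5] at C1
  -- the values at `π h`
  have g3 : Gp L ψ (L.Ur ⊥ n) (c + π • -u + π ^ (m + 2) • u)
      (sht L ψ (sht L ψ w (c + π • -u)) (c + π • -u + π ^ (m + 2) • u)) :=
    q2_gp hπ hψ g2 hu hs0
  have Z1 := tk_pi (s := m + 2) hπ hψ hn g3 hhI
  have Z2 := tk_pi (s := m + 2) hπ hψ hn g hhI
  have C3 := tk_ch hπ hψ hn g hx hu hs0
  rw [C3]
  rw [add_comm u (π • h)] at C2
  rw [C1, C2] at P1
  have e6 : ∀ A B C D E G H : (Xf f).pt Ω →₀ ℤ, A + B - A - C =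
      -((D + E) - (G + B)) + (D - C) - (G - H) + E - H := by
    intro A B C D E G H
    abel
  rw [e6 _ _ _ (Tk f L ψ π (m + 2) n (c + π • -u) (sht L ψ w (c + π • -u)) u)
    (Tk f L ψ π (m + 2) n (c + π • -u + π ^ (m + 2) • u)
      (sht L ψ (sht L ψ w (c + π • -u)) (c + π • -u + π ^ (m + 2) • u)) (π • h))
    (Tk f L ψ π (m + 2) n (c + π • (π • h)) (sht L ψ w (c + π • (π • h))) (π • h))
    (Tk f L ψ π (m + 2) n c w (π • h))]
  exact sub_mem (add_mem (sub_mem (add_mem (neg_mem P1) P3) P2) Z1) Z2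

end GX
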