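import Pool.Agent.Lib.MP_f80667_ag.Q2.A
import Pool.Agent.Lib.MP_f80667_ag.Q2.B
import Pool.Agent.Lib.MP_f80667_ag.Lv.Ko.C1
import Pool.Agent.Lib.MP_f80667_ag.Lv.Ko.F1b

/-!
The third difference of the values `Tk` for `p = 2`.

* `Ri L M`: the integers of `M`.
* `tk_mul`: `p Tk` is in `Vl (s + 1)`.
* `tk_bb`: the second difference is balanced modulo `Vl (s + 1)`.
* `tk_td`: the third difference is in `Vl (s + 1)`.
-/

open ZC BE PE CV IntermediateField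

namespace GX

section ring

variable {K Ω : Type} [Field K] [Field Ω] [Algebra K Ω]

/-- The integers of `M`. -/
def Ri (L : Ld K Ω) (M : IntermediateField K Ω) : Subring Ω where
  carrier := {a | a ∈ M ∧ L.nm a ≤ 1}
  mul_mem' {a b} ha hb := ⟨mul_mem ha.1 hb.1, by
    rw [L.mul]
    exact mul_le_one₀ ha.2 (L.nonneg _) hb.2⟩
  one_mem' := ⟨one_mem M, L.one.le⟩
  add_mem' {a b} ha hb := ⟨add_mem ha.1 hb.1, (L.add _ _).trans (max_le ha.2 hb.2)⟩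
  zero_mem' := ⟨zero_mem M, by
    rw [L.zero]
    exact zero_le_one⟩
  neg_mem' {a} ha := ⟨neg_mem ha.1, by
    rw [L.neg]
    exact ha.2⟩

theorem ri_iv {L : Ld K Ω} {M : IntermediateField K Ω} {d : ℕ} (v : Fin (d + 1) → Ri L M) :
    Iv L M (fun i => (v i : Ω)) := fun i => (v i).2

end ring

variable {F : Type} [Field F] {N d : ℕ} {ι : Type} {f : ι → MvPolynomial (Fin N) F} {K Ω : Type}
  [Field K] [CharZero K] [Field Ω] [Algebra K Ω] [Algebra F K] [Algebra F Ω]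
  [IsScalarTower F K Ω] [IsAlgClosure K Ω] {L : Ld K Ω} {ψ : Prj K N d} {π : Ω} {k s : ℕ}
  {n : ℕ} {c u u' x x' : Fin (d + 1) → Ω} {w : Ω} {M : IntermediateField K Ω}

/-- Proof: `cyv_mul`, `cyv_dr`. -/
theorem tk_mul (hπ : Uf L π) (hψ : Pj f L ψ) (hn : n ≠ 0) (g : Gp L ψ (L.Ur ⊥ n) c w)
    (hu : Iv L (L.Ur ⊥ n) u) (hs : s ≠ 0) :
    L.p • Tk f L ψ π s n c w u ∈ Vl f L π (s + 1) := by
  have hM : Um L (L.Ur ⊥ n) := ⟨n, hn, le_rfl⟩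
  obtain ⟨e, he0, he⟩ := exists_e hπ
  obtain ⟨h1, h2, h3⟩ := q2_pi hπ hu hs
  have h4 := cyv_mul hπ hψ hM g h1 he hs h2
  have hpp := L.pp.two_le
  have h5 : s + 1 ≤ min (e + 2 * s) (L.p * s) := by
    refine le_min (by omega) ?_
    calc s + 1 ≤ s + s := by omega
      _ = 2 * s := (two_mul s).symm
      _ ≤ L.p * s := Nat.mul_le_mul_right s hpp
  have h6 := vl_anti hπ h5 h4
  have h7 : ∀ r, L.nm (((L.p : Ω) • π ^ s • u) r) ≤ L.nm π ^ (s + 1) := by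
    intro r
    rw [Pi.smul_apply, smul_eq_mul, L.mul, he]
    calc L.nm π ^ e * L.nm ((π ^ s • u) r) ≤ L.nm π ^ e * L.nm π ^ s :=
          mul_le_mul_of_nonneg_left (h2 r) (pow_nonneg hπ.pos.le e)
      _ = L.nm π ^ (e + s) := (pow_add _ _ _).symm
      _ ≤ L.nm π ^ (s + 1) := hπ.pow_le (by omega)
  have h8 : Iv L (L.Ur ⊥ n) ((L.p : Ω) • π ^ s • u) :=
    q2_smul (IntermediateField.natCast_mem _ L.p) L.lt.le h1
  have h9 := vl_dr (s + 1) (cyv_dr hπ hψ hM g h8 (Nat.succ_ne_zero s) h7)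
  have h10 := add_mem h6 h9
  rwa [sub_add_cancel] at h10

/-- The values as a function on the vectors over the integers of `Ur ⊥ n`. -/
private noncomputable def dq (f : ι → MvPolynomial (Fin N) F) (L : Ld K Ω) (ψ : Prj K N d)
    (π : Ω) (s n : ℕ) (c : Fin (d + 1) → Ω) (w : Ω) (v : Fin (d + 1) → Ri L (L.Ur ⊥ n)) :
    ((Xf f).pt Ω →₀ ℤ) ⧸ Vl f L π (s + 1) :=
  QuotientAddGroup.mk' (Vl f L π (s + 1)) (Tk f L ψ π s n c w fun i => (v i : Ω))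

omit [CharZero K] [IsAlgClosure K Ω] in
private theorem dq_add {n : ℕ} (v v' : Fin (d + 1) → Ri L (L.Ur ⊥ n)) :
    (fun i => ((v + v') i : Ω)) = (fun i => (v i : Ω)) + fun i => (v' i : Ω) := rfl

private theorem dq_lna (hπ : Uf L π) (hψ : Pj f L ψ) (hn : n ≠ 0)
    (g : Gp L ψ (L.Ur ⊥ n) c w) (hs : s ≠ 0) :
    Lna (Ri L (L.Ur ⊥ n)) (dq f L ψ π s n c w) := by
  intro x y a b
  unfold dq
  rw [← map_add, ← map_add, ← sub_eq_zero, ← map_sub]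
  refine (QuotientAddGroup.eq_zero_iff _).2 ?_
  exact tk_line hπ hψ hn g (ri_iv x) (ri_iv y) a.2.1 a.2.2 b.2.1 b.2.2 hs

private theorem dq_two (hπ : Uf L π) (hψ : Pj f L ψ) (h2 : L.p = 2) (hn : n ≠ 0)
    (g : Gp L ψ (L.Ur ⊥ n) c w) (hs : s ≠ 0) (x : Fin (d + 1) → Ri L (L.Ur ⊥ n)) :
    dq f L ψ π s n c w x + dq f L ψ π s n c w x = 0 := by
  unfold dq
  rw [← map_add]
  refine (QuotientAddGroup.eq_zero_iff _).2 ?_
  have h := tk_mul hπ hψ hn g (ri_iv x) hs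
  rw [h2, two_nsmul] at h
  exact h

private theorem dq_bd (hπ : Uf L π) (hψ : Pj f L ψ) (hn : n ≠ 0)
    (g : Gp L ψ (L.Ur ⊥ n) c w) (hs : s ≠ 0) (x y : Fin (d + 1) → Ri L (L.Ur ⊥ n)) :
    df2 (dq f L ψ π s n c w) x y = QuotientAddGroup.mk' (Vl f L π (s + 1))
      (Tk f L ψ π s n (c + π ^ s • fun i => (x i : Ω))
        (sht L ψ w (c + π ^ s • fun i => (x i : Ω))) (fun i => (y i : Ω)) -
      Tk f L ψ π s n c w fun i => (y i : Ω)) := by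
  have h := tk_ch (f := f) hπ hψ hn g (ri_iv x) (ri_iv y) hs
  have h0 : (fun i => (((0 : Fin (d + 1) → Ri L (L.Ur ⊥ n)) i : Ri L (L.Ur ⊥ n)) : Ω)) = 0 := rfl
  unfold df2 dq
  rw [dq_add, h, h0, tk_zero hψ g, map_zero, ← map_sub, ← map_sub, add_zero]
  congr 1
  abel

/-- **The second difference is balanced**, `p = 2`. -/
theorem tk_bb (hπ : Uf L π) (hψ : Pj f L ψ) (h2 : L.p = 2) (hn : n ≠ 0)
    (g : Gp L ψ (L.Ur ⊥ n) c w) (hx : Iv L (L.Ur ⊥ n) x) (hu : Iv L (L.Ur ⊥ n) u) {a : Ω}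
    (ha : a ∈ L.Ur ⊥ n) (ha1 : L.nm a ≤ 1) (hs : s ≠ 0) :
    (Tk f L ψ π s n (c + π ^ s • (a • x)) (sht L ψ w (c + π ^ s • (a • x))) u -
      Tk f L ψ π s n c w u) -
    (Tk f L ψ π s n (c + π ^ s • x) (sht L ψ w (c + π ^ s • x)) (a • u) -
      Tk f L ψ π s n c w (a • u)) ∈ Vl f L π (s + 1) := by
  have h := df2_one (dq_lna (f := f) hπ hψ hn g hs) (dq_two hπ hψ h2 hn g hs)
    (fun i => (⟨x i, hx i⟩ : Ri L (L.Ur ⊥ n))) (fun i => (⟨u i, hu i⟩ : Ri L (L.Ur ⊥ n)))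
    (⟨a, ha, ha1⟩ : Ri L (L.Ur ⊥ n))
  rw [dq_bd hπ hψ hn g hs, dq_bd hπ hψ hn g hs, ← sub_eq_zero, ← map_sub] at h
  exact (QuotientAddGroup.eq_zero_iff _).1 h

/-- The third difference over a field which contains the third roots of unity. -/
private theorem td3_aux (hπ : Uf L π) (hψ : Pj f L ψ) (h2 : L.p = 2) (hn : n ≠ 0)
    (g : Gp L ψ (L.Ur ⊥ n) c w) (hx : Iv L (L.Ur ⊥ n) x) (hx' : Iv L (L.Ur ⊥ n) x')
    (hu : Iv L (L.Ur ⊥ n) u) {ζ : Ω} (hζ : ζ ∈ L.Ur ⊥ n) (hζ1 : L.nm ζ ≤ 1)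
    (hz : ζ ^ 2 + ζ + 1 = 0) (hs : s ≠ 0) :
    Tk f L ψ π s n (c + π ^ s • (x + x')) (sht L ψ w (c + π ^ s • (x + x'))) u -
      Tk f L ψ π s n (c + π ^ s • x) (sht L ψ w (c + π ^ s • x)) u -
      Tk f L ψ π s n (c + π ^ s • x') (sht L ψ w (c + π ^ s • x')) u +
      Tk f L ψ π s n c w u ∈ Vl f L π (s + 1) := by
  have h := df3_zero (dq_lna (f := f) hπ hψ hn g hs) (dq_two hπ hψ h2 hn g hs)
    (ζ := (⟨ζ, hζ, hζ1⟩ : Ri L (L.Ur ⊥ n))) (Subtype.ext hz)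
    (fun i => (⟨x i, hx i⟩ : Ri L (L.Ur ⊥ n))) (fun i => (⟨x' i, hx' i⟩ : Ri L (L.Ur ⊥ n)))
    (fun i => (⟨u i, hu i⟩ : Ri L (L.Ur ⊥ n)))
  have e1 := tk_ch (f := f) hπ hψ hn g (q2_add hx hx') hu hs
  have e2 := tk_ch (f := f) hπ hψ hn g hx hu hs
  have e3 := tk_ch (f := f) hπ hψ hn g hx' hu hs
  unfold df3 df2 dq at h
  simp only [add_zero] at h
  rw [← map_sub, ← map_sub, ← map_add, ← map_sub, ← map_sub, ← map_add, ← map_sub] at h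
  have h' := (QuotientAddGroup.eq_zero_iff _).1 h
  have h0 : (fun i => (((0 : Fin (d + 1) → Ri L (L.Ur ⊥ n)) i : Ri L (L.Ur ⊥ n)) : Ω)) = 0 := rfl
  rw [h0, tk_zero hψ g] at h'
  have h3 : Tk f L ψ π s n c w (x + (x' + u)) - Tk f L ψ π s n c w (x + x') -
      Tk f L ψ π s n c w (x + u) + Tk f L ψ π s n c w x - (Tk f L ψ π s n c w (x' + u) -
      Tk f L ψ π s n c w x' - Tk f L ψ π s n c w u + 0) ∈ Vl f L π (s + 1) := h'
  rw [← add_assoc, e1, e2, e3] at h3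
  have e4 : ∀ A B C D E G H : (Xf f).pt Ω →₀ ℤ, B - C - E + G =
      A + B - A - (D + C) + D - (H + E - H - G + 0) := by
    intro A B C D E G H
    abel
  rw [e4 (Tk f L ψ π s n c w (x + x')) _ _ (Tk f L ψ π s n c w x) _ _
    (Tk f L ψ π s n c w x')]
  exact h3

omit [CharZero K] in
/-- A third root of unity. -/
theorem exists_z3 (L : Ld K Ω) (h2 : L.p = 2) {n : ℕ} (h : 2 ∣ n) :
    ∃ ζ ∈ L.Ur ⊥ n, L.nm ζ ≤ 1 ∧ ζ ^ 2 + ζ + 1 = 0 := by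
  have hΩ : IsAlgClosed Ω := IsAlgClosure.isAlgClosed K
  have hq : (Polynomial.X ^ 2 + Polynomial.X + 1 : Polynomial Ω).degree ≠ 0 := by
    have h3 : (Polynomial.X ^ 2 + Polynomial.X + 1 : Polynomial Ω).degree = 2 := by
      compute_degree!
    rw [h3]
    exact two_ne_zero
  obtain ⟨ζ, hζ⟩ := IsAlgClosed.exists_root _ hq
  have hz : ζ ^ 2 + ζ + 1 = 0 := by
    have h3 := hζ
    rw [Polynomial.IsRoot.def] at h3
    simpa using h3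
  have h3 : ζ ^ 3 = 1 := by
    linear_combination (ζ - 1) * hz
  have h4 : ζ ∈ L.Te 2 := by
    change ζ ^ L.p ^ 2 = ζ
    rw [h2]
    linear_combination ζ * h3
  exact ⟨ζ, Ld.ur_dvd ⊥ h (Ld.te_ur h4), Ld.te_int two_ne_zero h4, hz⟩

/-- **The third difference**, `p = 2`. -/
theorem tk_td (hπ : Uf L π) (hψ : Pj f L ψ) (h2 : L.p = 2) (hk : L.Rf ⊥ k) (hn : n ≠ 0)
    (hkn : k ∣ n) (g : Gp L ψ (L.Ur ⊥ n) c w) (hx : Iv L (L.Ur ⊥ n) x)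
    (hx' : Iv L (L.Ur ⊥ n) x') (hu : Iv L (L.Ur ⊥ n) u) (hs : s ≠ 0) :
    Tk f L ψ π s n (c + π ^ s • (x + x')) (sht L ψ w (c + π ^ s • (x + x'))) u -
      Tk f L ψ π s n (c + π ^ s • x) (sht L ψ w (c + π ^ s • x)) u -
      Tk f L ψ π s n (c + π ^ s • x') (sht L ψ w (c + π ^ s • x')) u +
      Tk f L ψ π s n c w u ∈ Vl f L π (s + 1) := by
  have hn2 : n * 2 ≠ 0 := mul_ne_zero hn two_ne_zero
  have hle : L.Ur ⊥ n ≤ L.Ur ⊥ (n * 2) := Ld.ur_dvd ⊥ (dvd_mul_right _ _)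
  have hmo : ∀ {v : Fin (d + 1) → Ω}, Iv L (L.Ur ⊥ n) v → Iv L (L.Ur ⊥ (n * 2)) v :=
    fun hv i => ⟨hle (hv i).1, (hv i).2⟩
  obtain ⟨b, hb, hb1, hbn⟩ := nm_onto hk hn hkn hn2 (dvd_mul_right _ _) (one_mem _) L.one.le
  obtain ⟨ζ, hζ, hζ1, hz⟩ := exists_z3 L h2 (dvd_mul_left _ _)
  have T := td3_aux (f := f) (s := s) hπ hψ h2 hn2 (g.mono hle) (hmo hx) (hmo hx')
    (q2_smul hb hb1 (hmo hu)) hζ hζ1 hz hs
  have N0 := tk_norm (f := f) (s := s) hπ hψ hn hn2 (dvd_mul_right _ _) g hu hb hb1 hs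
  have N1 := tk_norm (f := f) (s := s) hπ hψ hn hn2 (dvd_mul_right _ _)
    (q2_gp hπ hψ g (q2_add hx hx') hs) hu hb hb1 hs
  have N2 := tk_norm (f := f) (s := s) hπ hψ hn hn2 (dvd_mul_right _ _)
    (q2_gp hπ hψ g hx hs) hu hb hb1 hs
  have N3 := tk_norm (f := f) (s := s) hπ hψ hn hn2 (dvd_mul_right _ _)
    (q2_gp hπ hψ g hx' hs) hu hb hb1 hs
  rw [hbn, one_smul] at N0 N1 N2 N3
  have e4 : ∀ A B C D A' B' C' D' : (Xf f).pt Ω →₀ ℤ, A - B - C + D =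
      (A' - B' - C' + D') - (A' - A) + (B' - B) + (C' - C) - (D' - D) := by
    intro A B C D A' B' C' D'
    abel
  rw [e4 _ _ _ _
    (Tk f L ψ π s (n * 2) (c + π ^ s • (x + x')) (sht L ψ w (c + π ^ s • (x + x'))) (b • u))
    (Tk f L ψ π s (n * 2) (c + π ^ s • x) (sht L ψ w (c + π ^ s • x)) (b • u))
    (Tk f L ψ π s (n * 2) (c + π ^ s • x') (sht L ψ w (c + π ^ s • x')) (b • u))
    (Tk f L ψ π s (n * 2) c w (b • u))]
  exact sub_mem (add_mem (add_mem (sub_mem T N1) N2) N3) N0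

end GX
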