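import Pool.Agent.Lib.MP_f80667_ag.Q2.D
import Pool.Agent.Lib.MP_f80667_ag.Lv.Ko.F2

/-!
The values `Gk` and `Tk` for every `p` and every level `s ≠ 0`.

* `Tad f L ψ π s n`: `Tk` is additive modulo `Vl (s + 1)`; true for `2 < p` and for `2 ≤ s`.
* `ga_add`, `ga_addl`, `ga_bal`: `Gk` is biadditive and balanced modulo `Vl (s + 1)`.
* `ga_tad`: `Tk` is additive modulo a group which contains `Vl (s + 1)` and the values `Gk`.
-/

open ZC BE PE CV IntermediateField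

namespace GX

variable {F : Type} [Field F] {N d : ℕ} {ι : Type} {f : ι → MvPolynomial (Fin N) F} {K Ω : Type}
  [Field K] [CharZero K] [Field Ω] [Algebra K Ω] [Algebra F K] [Algebra F Ω]
  [IsScalarTower F K Ω] [IsAlgClosure K Ω] {L : Ld K Ω} {ψ : Prj K N d} {π : Ω} {k s : ℕ}
  {W : AddSubgroup ((Xf f).pt Ω →₀ ℤ)}
  {n : ℕ} {c u u' x x' : Fin (d + 1) → Ω} {w : Ω}

/-- `Tk` is additive modulo `Vl (s + 1)`. -/
def Tad (f : ι → MvPolynomial (Fin N) F) (L : Ld K Ω) (ψ : Prj K N d) (π : Ω) (s n : ℕ) : Prop :=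
  ∀ (c : Fin (d + 1) → Ω) (w : Ω) (u u' : Fin (d + 1) → Ω), Gp L ψ (L.Ur ⊥ n) c w →
    Iv L (L.Ur ⊥ n) u → Iv L (L.Ur ⊥ n) u' →
      Tk f L ψ π s n c w (u + u') - Tk f L ψ π s n c w u - Tk f L ψ π s n c w u' ∈
        Vl f L π (s + 1)

/-- Proof: `tk_add`, `tk_ad`. -/
theorem tad_of (hπ : Uf L π) (hψ : Pj f L ψ) (hn : n ≠ 0) (hs : s ≠ 0)
    (h : 2 < L.p ∨ 2 ≤ s) : Tad f L ψ π s n := fun c w u u' g hu hu' => by
  rcases h with h | h
  · exact tk_add hπ hψ h hn g hu hu' hs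
  · exact tk_ad hπ hψ hn g hu hu' h

private theorem e_sh (hπ : Uf L π) (hψ : Pj f L ψ) {M : IntermediateField K Ω}
    (g : Gp L ψ M c w) {y : Fin (d + 1) → Ω} (hy : Iv L M y) :
    Gp L ψ M (c + π • y) (sht L ψ w (c + π • y)) := by
  have h := q2_gp hπ hψ g hy one_ne_zero
  rwa [pow_one] at h

private theorem e_sht (hπ : Uf L π) (hψ : Pj f L ψ) {M : IntermediateField K Ω}
    (g : Gp L ψ M c w) {y y' : Fin (d + 1) → Ω} (hy : Iv L M y) (hy' : Iv L M y') :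
    sht L ψ (sht L ψ w (c + π • y)) (c + π • y') = sht L ψ w (c + π • y') := by
  have h := q2_sht hπ hψ g hy hy' one_ne_zero one_ne_zero
  rwa [pow_one] at h

/-- The swap, as `gk_swap`. -/
private theorem e_swap (hT : Tad f L ψ π s n) (hπ : Uf L π) (hψ : Pj f L ψ) (hn : n ≠ 0)
    (g : Gp L ψ (L.Ur ⊥ n) c w) (hu : Iv L (L.Ur ⊥ n) u) (hx : Iv L (L.Ur ⊥ n) x) {a : Ω}
    (ha : a ∈ L.Ur ⊥ n) (ha1 : L.nm a ≤ 1) (hs : s ≠ 0) :
    Gk f L ψ π s (a • x) n c w u - Gk f L ψ π s (-(a • u)) n c w x ∈ Vl f L π (s + 1) := by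
  have hax := q2_smul ha ha1 hx
  have hau := q2_neg (q2_smul ha ha1 hu)
  have hux := q2_add hu hx
  have ha' : -a ∈ L.Ur ⊥ n := neg_mem ha
  have ha1' : L.nm (-a) ≤ 1 := by
    rw [L.neg]
    exact ha1
  have g1 := e_sh hπ hψ g hax
  have g2 := e_sh hπ hψ g hau
  have e1 : c + π • -(a • u) = c + π • (-a • u) := by rw [neg_smul]
  have e2 : c + π • (a • x) + π • (-a • (u + x)) = c + π • -(a • u) := by
    funext i
    simp only [Pi.add_apply, Pi.smul_apply, Pi.neg_apply, smul_eq_mul]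
    ring
  have e3 := e_sht hπ hψ g hax hau
  have A1 := hT _ _ _ _ g1 hu hx
  have A2 := hT _ _ _ _ g2 hu hx
  have P1 := tk_par hπ hψ hn g hx ha ha1 hs
  have P2 := tk_par hπ hψ hn g1 hux ha' ha1' hs
  rw [e2, e3] at P2
  have P3 := tk_par hπ hψ hn g hu ha' ha1' hs
  rw [← e1] at P3
  have h := sub_mem (sub_mem (sub_mem (add_mem A2 P3) P2) P1) A1
  have e : Gk f L ψ π s (a • x) n c w u - Gk f L ψ π s (-(a • u)) n c w x =
      (Tk f L ψ π s n (c + π • -(a • u)) (sht L ψ w (c + π • -(a • u))) (u + x) -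
        Tk f L ψ π s n (c + π • -(a • u)) (sht L ψ w (c + π • -(a • u))) u -
        Tk f L ψ π s n (c + π • -(a • u)) (sht L ψ w (c + π • -(a • u))) x +
      (Tk f L ψ π s n (c + π • -(a • u)) (sht L ψ w (c + π • -(a • u))) u -
        Tk f L ψ π s n c w u)) -
      (Tk f L ψ π s n (c + π • -(a • u)) (sht L ψ w (c + π • -(a • u))) (u + x) -
        Tk f L ψ π s n (c + π • (a • x)) (sht L ψ w (c + π • (a • x))) (u + x)) -
      (Tk f L ψ π s n (c + π • (a • x)) (sht L ψ w (c + π • (a • x))) x -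
        Tk f L ψ π s n c w x) -
      (Tk f L ψ π s n (c + π • (a • x)) (sht L ψ w (c + π • (a • x))) (u + x) -
        Tk f L ψ π s n (c + π • (a • x)) (sht L ψ w (c + π • (a • x))) u -
        Tk f L ψ π s n (c + π • (a • x)) (sht L ψ w (c + π • (a • x))) x) := by
    unfold Gk
    abel
  rw [e]
  exact h

private theorem e_add (hT : Tad f L ψ π s n) (hπ : Uf L π) (hψ : Pj f L ψ)
    (g : Gp L ψ (L.Ur ⊥ n) c w) (hu : Iv L (L.Ur ⊥ n) u) (hu' : Iv L (L.Ur ⊥ n) u')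
    (hx : Iv L (L.Ur ⊥ n) x) :
    Gk f L ψ π s x n c w (u + u') - Gk f L ψ π s x n c w u - Gk f L ψ π s x n c w u' ∈
      Vl f L π (s + 1) := by
  have h := sub_mem (hT _ _ _ _ (e_sh hπ hψ g hx) hu hu') (hT _ _ _ _ g hu hu')
  have e : Gk f L ψ π s x n c w (u + u') - Gk f L ψ π s x n c w u - Gk f L ψ π s x n c w u' =
      (Tk f L ψ π s n (c + π • x) (sht L ψ w (c + π • x)) (u + u') -
        Tk f L ψ π s n (c + π • x) (sht L ψ w (c + π • x)) u -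
        Tk f L ψ π s n (c + π • x) (sht L ψ w (c + π • x)) u') -
      (Tk f L ψ π s n c w (u + u') - Tk f L ψ π s n c w u - Tk f L ψ π s n c w u') := by
    unfold Gk
    abel
  rw [e]
  exact h

private theorem e_addl (hT : Tad f L ψ π s n) (hπ : Uf L π) (hψ : Pj f L ψ) (hn : n ≠ 0)
    (g : Gp L ψ (L.Ur ⊥ n) c w) (hu : Iv L (L.Ur ⊥ n) u) (hx : Iv L (L.Ur ⊥ n) x)
    (hx' : Iv L (L.Ur ⊥ n) x') (hs : s ≠ 0) :
    Gk f L ψ π s (x + x') n c w u - Gk f L ψ π s x n c w u - Gk f L ψ π s x' n c w u ∈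
      Vl f L π (s + 1) := by
  have h1 : L.nm (1 : Ω) ≤ 1 := le_of_eq L.one
  have hm : (1 : Ω) ∈ L.Ur ⊥ n := one_mem _
  have s1 := e_swap hT hπ hψ hn g hu (q2_add hx hx') hm h1 hs
  have s2 := e_swap hT hπ hψ hn g hu hx hm h1 hs
  have s3 := e_swap hT hπ hψ hn g hu hx' hm h1 hs
  rw [one_smul, one_smul] at s1 s2 s3
  have s4 := e_add hT hπ hψ g hx hx' (q2_neg hu)
  have h := sub_mem (sub_mem (add_mem s1 s4) s2) s3
  have e : Gk f L ψ π s (x + x') n c w u - Gk f L ψ π s x n c w u - Gk f L ψ π s x' n c w u =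
      (Gk f L ψ π s (x + x') n c w u - Gk f L ψ π s (-u) n c w (x + x')) +
      (Gk f L ψ π s (-u) n c w (x + x') - Gk f L ψ π s (-u) n c w x -
        Gk f L ψ π s (-u) n c w x') -
      (Gk f L ψ π s x n c w u - Gk f L ψ π s (-u) n c w x) -
      (Gk f L ψ π s x' n c w u - Gk f L ψ π s (-u) n c w x') := by
    abel
  rw [e]
  exact h

private theorem e_bal (hT : Tad f L ψ π s n) (hπ : Uf L π) (hψ : Pj f L ψ) (hn : n ≠ 0)
    (g : Gp L ψ (L.Ur ⊥ n) c w) (hu : Iv L (L.Ur ⊥ n) u) (hx : Iv L (L.Ur ⊥ n) x) {a : Ω}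
    (ha : a ∈ L.Ur ⊥ n) (ha1 : L.nm a ≤ 1) (hs : s ≠ 0) :
    Gk f L ψ π s (a • x) n c w u - Gk f L ψ π s x n c w (a • u) ∈ Vl f L π (s + 1) := by
  have h1 : L.nm (1 : Ω) ≤ 1 := le_of_eq L.one
  have hm : (1 : Ω) ∈ L.Ur ⊥ n := one_mem _
  have s1 := e_swap hT hπ hψ hn g hu hx ha ha1 hs
  have s2 := e_swap hT hπ hψ hn g (q2_smul ha ha1 hu) hx hm h1 hs
  rw [one_smul, one_smul] at s2
  have h := sub_mem s1 s2
  rwa [sub_sub_sub_cancel_right] at h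

/-- The third difference of level `1` for `p = 2`. -/
private theorem e_td (hπ : Uf L π) (hψ : Pj f L ψ) (h2 : L.p = 2) (hk : L.Rf ⊥ k) (hn : n ≠ 0)
    (hkn : k ∣ n) (g : Gp L ψ (L.Ur ⊥ n) c w) (hx : Iv L (L.Ur ⊥ n) x)
    (hx' : Iv L (L.Ur ⊥ n) x') (hu : Iv L (L.Ur ⊥ n) u) :
    Tk f L ψ π 1 n (c + π • (x + x')) (sht L ψ w (c + π • (x + x'))) u -
      Tk f L ψ π 1 n (c + π • x) (sht L ψ w (c + π • x)) u -
      Tk f L ψ π 1 n (c + π • x') (sht L ψ w (c + π • x')) u +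
      Tk f L ψ π 1 n c w u ∈ Vl f L π (1 + 1) := by
  have h := tk_td (f := f) (s := 1) hπ hψ h2 hk hn hkn g hx hx' hu one_ne_zero
  rwa [pow_one] at h

private theorem e_ch (hπ : Uf L π) (hψ : Pj f L ψ) (hn : n ≠ 0) (g : Gp L ψ (L.Ur ⊥ n) c w)
    (hx : Iv L (L.Ur ⊥ n) x) (hu : Iv L (L.Ur ⊥ n) u) :
    Tk f L ψ π 1 n c w (x + u) = Tk f L ψ π 1 n c w x +
      Tk f L ψ π 1 n (c + π • x) (sht L ψ w (c + π • x)) u := by
  have h := tk_ch (f := f) (s := 1) hπ hψ hn g hx hu one_ne_zero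
  rwa [pow_one] at h

omit [CharZero K] [IsAlgClosure K Ω] in
private theorem e_or (hs : s ≠ 0) : (2 < L.p ∨ 2 ≤ s) ∨ L.p = 2 ∧ s = 1 := by
  have h := L.pp.two_le
  omega

/-- **`Gk` is additive in `u`.** -/
theorem ga_add (hπ : Uf L π) (hψ : Pj f L ψ) (hk : L.Rf ⊥ k) (hn : n ≠ 0) (hkn : k ∣ n)
    (g : Gp L ψ (L.Ur ⊥ n) c w) (hu : Iv L (L.Ur ⊥ n) u) (hu' : Iv L (L.Ur ⊥ n) u')
    (hx : Iv L (L.Ur ⊥ n) x) (hs : s ≠ 0) :
    Gk f L ψ π s x n c w (u + u') - Gk f L ψ π s x n c w u - Gk f L ψ π s x n c w u' ∈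
      Vl f L π (s + 1) := by
  rcases e_or (L := L) hs with h | ⟨h2, rfl⟩
  · exact e_add (tad_of hπ hψ hn hs h) hπ hψ g hu hu' hx
  · have T := e_td (f := f) hπ hψ h2 hk hn hkn g hx hu hu'
    have g1 := e_sh hπ hψ g hx
    have C1 := e_ch (f := f) hπ hψ hn g1 hu hu'
    have C2 := e_ch (f := f) hπ hψ hn g hu hu'
    have e1 : c + π • x + π • u = c + π • (x + u) := by rw [smul_add, add_assoc]
    rw [e1, e_sht hπ hψ g hx (q2_add hx hu)] at C1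
    unfold Gk
    rw [C1, C2]
    have e2 : ∀ A B C D A' B' : (Xf f).pt Ω →₀ ℤ,
        A + B - (A' + B') - (A - A') - (C - D) = B - C - B' + D := by
      intro A B C D A' B'
      abel
    rw [e2]
    exact T

/-- **`Gk` is additive in `x`.** -/
theorem ga_addl (hπ : Uf L π) (hψ : Pj f L ψ) (hk : L.Rf ⊥ k) (hn : n ≠ 0) (hkn : k ∣ n)
    (g : Gp L ψ (L.Ur ⊥ n) c w) (hu : Iv L (L.Ur ⊥ n) u) (hx : Iv L (L.Ur ⊥ n) x)
    (hx' : Iv L (L.Ur ⊥ n) x') (hs : s ≠ 0) :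
    Gk f L ψ π s (x + x') n c w u - Gk f L ψ π s x n c w u - Gk f L ψ π s x' n c w u ∈
      Vl f L π (s + 1) := by
  rcases e_or (L := L) hs with h | ⟨h2, rfl⟩
  · exact e_addl (tad_of hπ hψ hn hs h) hπ hψ hn g hu hx hx' hs
  · have T := e_td (f := f) hπ hψ h2 hk hn hkn g hx hx' hu
    unfold Gk
    have e2 : ∀ A B C D : (Xf f).pt Ω →₀ ℤ,
        A - D - (B - D) - (C - D) = A - B - C + D := by
      intro A B C D
      abel
    rw [e2]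
    exact T

/-- **`Gk` is balanced.** -/
theorem ga_bal (hπ : Uf L π) (hψ : Pj f L ψ) (hn : n ≠ 0)
    (g : Gp L ψ (L.Ur ⊥ n) c w) (hu : Iv L (L.Ur ⊥ n) u) (hx : Iv L (L.Ur ⊥ n) x) {a : Ω}
    (ha : a ∈ L.Ur ⊥ n) (ha1 : L.nm a ≤ 1) (hs : s ≠ 0) :
    Gk f L ψ π s (a • x) n c w u - Gk f L ψ π s x n c w (a • u) ∈ Vl f L π (s + 1) := by
  rcases e_or (L := L) hs with h | ⟨h2, rfl⟩
  · exact e_bal (tad_of hπ hψ hn hs h) hπ hψ hn g hu hx ha ha1 hs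
  · have T := tk_bb (f := f) (s := 1) hπ hψ h2 hn g hx hu ha ha1 one_ne_zero
    rw [pow_one] at T
    exact T

/-- **`Tk` is additive modulo the values `Gk`.** -/
theorem ga_tad (hπ : Uf L π) (hψ : Pj f L ψ) (hn : n ≠ 0) (hW : Vl f L π (s + 1) ≤ W)
    (hG : ∀ (c : Fin (d + 1) → Ω) (w : Ω) (x u : Fin (d + 1) → Ω), Gp L ψ (L.Ur ⊥ n) c w →
      Iv L (L.Ur ⊥ n) x → Iv L (L.Ur ⊥ n) u → Gk f L ψ π s x n c w u ∈ W)
    (g : Gp L ψ (L.Ur ⊥ n) c w) (hu : Iv L (L.Ur ⊥ n) u) (hu' : Iv L (L.Ur ⊥ n) u')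
    (hs : s ≠ 0) :
    Tk f L ψ π s n c w (u + u') - Tk f L ψ π s n c w u - Tk f L ψ π s n c w u' ∈ W := by
  rcases e_or (L := L) hs with h | ⟨-, rfl⟩
  · exact hW (tad_of hπ hψ hn hs h c w u u' g hu hu')
  · have h := hG c w u u' g hu hu'
    unfold Gk at h
    rw [e_ch (f := f) hπ hψ hn g hu hu', add_sub_cancel_left]
    exact h

end GX
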