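import Pool.Agent.Lib.MP_f80667_ag.Lv.Ko.F4

/-! The rules `Ga` for the values `Gk` and `Tk`, without a condition on `p`. -/

open ZC BE PE CV IntermediateField

namespace GX

variable {F : Type} [Field F] {N d : ℕ} {ι : Type} (f : ι → MvPolynomial (Fin N) F) {K Ω : Type}
  [Field K] [CharZero K] [Field Ω] [Algebra K Ω] [Algebra F K] [Algebra F Ω]
  [IsScalarTower F K Ω] [IsAlgClosure K Ω] (L : Ld K Ω) (ψ : Prj K N d) (π : Ω) (k s : ℕ)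

/-- The values `Gk` are biadditive and balanced modulo `Vl (s + 1)`; the values `Tk` are additive modulo the values `Gk`. -/
structure Ga : Prop where
  add : ∀ (n : ℕ) (c : Fin (d + 1) → Ω) (w : Ω) (x u u' : Fin (d + 1) → Ω), n ≠ 0 →
    Gp L ψ (L.Ur ⊥ n) c w → Iv L (L.Ur ⊥ n) x → Iv L (L.Ur ⊥ n) u → Iv L (L.Ur ⊥ n) u' →
      Gk f L ψ π s x n c w (u + u') - Gk f L ψ π s x n c w u - Gk f L ψ π s x n c w u' ∈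
        Vl f L π (s + 1)
  addl : ∀ (n : ℕ) (c : Fin (d + 1) → Ω) (w : Ω) (x x' u : Fin (d + 1) → Ω), n ≠ 0 →
    Gp L ψ (L.Ur ⊥ n) c w → Iv L (L.Ur ⊥ n) x → Iv L (L.Ur ⊥ n) x' → Iv L (L.Ur ⊥ n) u →
      Gk f L ψ π s (x + x') n c w u - Gk f L ψ π s x n c w u - Gk f L ψ π s x' n c w u ∈
        Vl f L π (s + 1)
  bal : ∀ (n : ℕ) (c : Fin (d + 1) → Ω) (w : Ω) (x u : Fin (d + 1) → Ω) (a : Ω), n ≠ 0 →
    Gp L ψ (L.Ur ⊥ n) c w → Iv L (L.Ur ⊥ n) x → Iv L (L.Ur ⊥ n) u → a ∈ L.Ur ⊥ n → L.nm a ≤ 1 →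
      Gk f L ψ π s (a • x) n c w u - Gk f L ψ π s x n c w (a • u) ∈ Vl f L π (s + 1)
  tad : ∀ W : AddSubgroup ((Xf f).pt Ω →₀ ℤ), Vl f L π (s + 1) ≤ W →
    (∀ (n : ℕ) (c : Fin (d + 1) → Ω) (w : Ω) (x u : Fin (d + 1) → Ω), n ≠ 0 → k ∣ n →
      Gp L ψ (L.Ur ⊥ n) c w → Iv L (L.Ur ⊥ n) x → Iv L (L.Ur ⊥ n) u →
        Gk f L ψ π s x n c w u ∈ W) →
    ∀ (n : ℕ) (c : Fin (d + 1) → Ω) (w : Ω) (u u' : Fin (d + 1) → Ω), n ≠ 0 → k ∣ n →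
      Gp L ψ (L.Ur ⊥ n) c w → Iv L (L.Ur ⊥ n) u → Iv L (L.Ur ⊥ n) u' →
        Tk f L ψ π s n c w (u + u') - Tk f L ψ π s n c w u - Tk f L ψ π s n c w u' ∈ W

end GX
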