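import Pool.Agent.Lib.MP_f80667_ag.Q2.Ga

/-! The values `Gk` and `Tk` without a condition on `p`: consequences of the rules `Ga`. -/

open ZC BE PE CV IntermediateField

namespace GX

variable {F : Type} [Field F] {N d : ℕ} {ι : Type} {f : ι → MvPolynomial (Fin N) F} {K Ω : Type}
  [Field K] [CharZero K] [Field Ω] [Algebra K Ω] [Algebra F K] [Algebra F Ω]
  [IsScalarTower F K Ω] [IsAlgClosure K Ω] {L : Ld K Ω} {ψ : Prj K N d} {π : Ω} {k s : ℕ}
  {W : AddSubgroup ((Xf f).pt Ω →₀ ℤ)}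
  {n : ℕ} {c u u' x x' : Fin (d + 1) → Ω} {w : Ω}

omit [CharZero K] [IsAlgClosure K Ω] in
private theorem qa_zero (M : IntermediateField K Ω) : Iv L M (0 : Fin (d + 1) → Ω) := fun _ => by
  rw [Pi.zero_apply, L.zero]
  exact ⟨zero_mem M, zero_le_one⟩

omit [CharZero K] [IsAlgClosure K Ω] in
private theorem qa_add {M : IntermediateField K Ω} {a b : Fin (d + 1) → Ω} (ha : Iv L M a)
    (hb : Iv L M b) : Iv L M (a + b) := fun i =>
  ⟨add_mem (ha i).1 (hb i).1, (L.add _ _).trans (max_le (ha i).2 (hb i).2)⟩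

omit [CharZero K] [IsAlgClosure K Ω] in
private theorem qa_smul {M : IntermediateField K Ω} {a : Ω} {b : Fin (d + 1) → Ω} (ha : a ∈ M)
    (ha1 : L.nm a ≤ 1) (hb : Iv L M b) : Iv L M (a • b) := fun i => by
  rw [Pi.smul_apply, smul_eq_mul, L.mul]
  exact ⟨mul_mem ha (hb i).1, mul_le_one₀ ha1 (L.nonneg _) (hb i).2⟩

omit [CharZero K] [IsAlgClosure K Ω] in
private theorem qa_single (M : IntermediateField K Ω) (t : Fin (d + 1)) :
    Iv L M (Pi.single t 1 : Fin (d + 1) → Ω) := fun i => by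
  by_cases h : i = t
  · subst h
    rw [Pi.single_eq_same, L.one]
    exact ⟨one_mem M, le_rfl⟩
  · rw [Pi.single_eq_of_ne h, L.zero]
    exact ⟨zero_mem M, zero_le_one⟩

omit [CharZero K] [IsAlgClosure K Ω] in
private theorem qa_sum {M : IntermediateField K Ω} {x : Fin (d + 1) → Ω} (hx : Iv L M x)
    (S : Finset (Fin (d + 1))) :
    Iv L M (∑ t ∈ S, x t • (Pi.single t 1 : Fin (d + 1) → Ω)) := by
  classical
  induction S using Finset.induction_on with
  | empty =>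
    rw [Finset.sum_empty]
    exact qa_zero M
  | insert t S ht ih =>
    rw [Finset.sum_insert ht]
    exact qa_add (qa_smul (hx t).1 (hx t).2 (qa_single M t)) ih

/-- Proof: `Gk (h + x) c = Gk x (c + π h) + Gk h c` (`sht_sht`), `gk_addl`. -/
theorem qk_near (hπ : Uf L π) (hψ : Pj f L ψ) (ga : Ga f L ψ π k s) (hn : n ≠ 0)
    (g : Gp L ψ (L.Ur ⊥ n) c w) (hu : Iv L (L.Ur ⊥ n) u) (hx : Iv L (L.Ur ⊥ n) x)
    {h : Fin (d + 1) → Ω} (hh : Iv L (L.Ur ⊥ n) h) :
    Gk f L ψ π s x n (c + π • h) (sht L ψ w (c + π • h)) u - Gk f L ψ π s x n c w u ∈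
      Vl f L π (s + 1) := by
  have hπM : π ∈ L.Ur ⊥ n := bot_le (a := L.Ur ⊥ n) hπ.bot
  have hlt : ∀ {v : Fin (d + 1) → Ω}, Iv L (L.Ur ⊥ n) v → ∀ r, L.nm ((π • v) r) < 1 := by
    intro v hv r
    rw [Pi.smul_apply, smul_eq_mul, L.mul]
    exact (mul_le_of_le_one_right (L.nonneg _) (hv r).2).trans_lt hπ.lt
  have hhx := qa_add hh hx
  have h3 := sht_sht hψ g (qa_smul hπM hπ.lt.le hh) (qa_smul hπM hπ.lt.le hhx) (hlt hh) (hlt hhx)
  have h4 : c + π • h + π • x = c + π • (h + x) := by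
    rw [smul_add, add_assoc]
  have h5 : Gk f L ψ π s x n (c + π • h) (sht L ψ w (c + π • h)) u - Gk f L ψ π s x n c w u =
      Gk f L ψ π s (h + x) n c w u - Gk f L ψ π s h n c w u - Gk f L ψ π s x n c w u := by
    unfold Gk
    rw [h4, h3]
    abel
  rw [h5]
  exact ga.addl n c w h x u hn g hh hx hu

omit [CharZero K] [IsAlgClosure K Ω] in
/-- The unit vectors are enough. Proof: `x = ∑ x t • e_t`, `gk_addl` (induction on the finset), `gk_bal`: `Gk (x t • e_t) u` is `Gk e_t (x t • u)`, and this is in `W`: `u = ∑ u r • e_r`, `gk_add`, `Ko`. -/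
theorem qk_all (ga : Ga f L ψ π k s) (hW : Vl f L π (s + 1) ≤ W)
    (hn : n ≠ 0) (hkn : k ∣ n) (g : Gp L ψ (L.Ur ⊥ n) c w) (hu : Iv L (L.Ur ⊥ n) u)
    (hx : Iv L (L.Ur ⊥ n) x)
    (h : ∀ t r, Ko L ψ k W (Gk f L ψ π s (Pi.single t 1)) c w (Pi.single r 1)) :
    Gk f L ψ π s x n c w u ∈ W := by
  classical
  have hz := qa_zero (L := L) (d := d) (L.Ur ⊥ n)
  -- the values at the unit vectors `x`
  have key : ∀ (t : Fin (d + 1)) (v : Fin (d + 1) → Ω), Iv L (L.Ur ⊥ n) v →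
      Gk f L ψ π s (Pi.single t 1) n c w v ∈ W := by
    intro t v hv
    have ht := qa_single (L := L) (L.Ur ⊥ n) t
    have hS : ∀ S : Finset (Fin (d + 1)), Gk f L ψ π s (Pi.single t 1) n c w
        (∑ r ∈ S, v r • (Pi.single r 1 : Fin (d + 1) → Ω)) ∈ W := by
      intro S
      induction S using Finset.induction_on with
      | empty =>
        rw [Finset.sum_empty]
        have h3 := hW (ga.add n c w _ 0 0 hn g ht hz hz)
        rw [add_zero, sub_self, zero_sub] at h3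
        exact neg_mem_iff.1 h3
      | insert r S hr ih =>
        rw [Finset.sum_insert hr]
        have hr1 := qa_single (L := L) (L.Ur ⊥ n) r
        have h3 := hW (ga.add n c w _ _ _ hn g ht (qa_smul (hv r).1 (hv r).2 hr1) (qa_sum hv S))
        have h4 := h t r n hn hkn g hr1 (v r) (hv r).1 (hv r).2
        have h5 := add_mem (add_mem h3 ih) h4
        rwa [sub_add_cancel, sub_add_cancel] at h5
    have h3 := hS Finset.univ
    have h4 : ∑ r, v r • (Pi.single r 1 : Fin (d + 1) → Ω) = v := by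
      funext i
      rw [Finset.sum_apply, Finset.sum_eq_single i]
      · rw [Pi.smul_apply, Pi.single_eq_same, smul_eq_mul, mul_one]
      · intro r _ hr
        rw [Pi.smul_apply, Pi.single_eq_of_ne hr.symm, smul_zero]
      · intro hi
        exact absurd (Finset.mem_univ i) hi
    rwa [h4] at h3
  have hS : ∀ S : Finset (Fin (d + 1)), Gk f L ψ π s
      (∑ t ∈ S, x t • (Pi.single t 1 : Fin (d + 1) → Ω)) n c w u ∈ W := by
    intro S
    induction S using Finset.induction_on with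
    | empty =>
      rw [Finset.sum_empty]
      have h3 := hW (ga.addl n c w 0 0 u hn g hz hz hu)
      rw [add_zero, sub_self, zero_sub] at h3
      exact neg_mem_iff.1 h3
    | insert t S ht ih =>
      rw [Finset.sum_insert ht]
      have ht1 := qa_single (L := L) (L.Ur ⊥ n) t
      have h3 := hW (ga.addl n c w _ _ u hn g (qa_smul (hx t).1 (hx t).2 ht1) (qa_sum hx S) hu)
      have h4 := hW (ga.bal n c w _ u (x t) hn g ht1 hu (hx t).1 (hx t).2)
      have h5 := key t (x t • u) (qa_smul (hx t).1 (hx t).2 hu)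
      have h6 := add_mem h4 h5
      rw [sub_add_cancel] at h6
      have h7 := add_mem (add_mem h3 ih) h6
      rwa [sub_add_cancel, sub_add_cancel] at h7
  have h3 := hS Finset.univ
  have h4 : ∑ t, x t • (Pi.single t 1 : Fin (d + 1) → Ω) = x := by
    funext i
    rw [Finset.sum_apply, Finset.sum_eq_single i]
    · rw [Pi.smul_apply, Pi.single_eq_same, smul_eq_mul, mul_one]
    · intro r _ hr
      rw [Pi.smul_apply, Pi.single_eq_of_ne hr.symm, smul_zero]
    · intro hi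
      exact absurd (Finset.mem_univ i) hi
  rwa [h4] at h3

/-- Proof: `gk_add`, `tk_pi`, `tk_norm` at both points (`Gp.mono`), `gk_near`, `gk_crv`. -/
theorem qk_vfn (hπ : Uf L π) (hψ : Pj f L ψ) (ga : Ga f L ψ π k s)
    (hx : Iv L (⊥ : IntermediateField K Ω) x) (hs : s ≠ 0) :
    Vfn f L ψ π k (Vl f L π (s + 1)) (Gk f L ψ π s x) := by
  have hx' : ∀ n : ℕ, Iv L (L.Ur ⊥ n) x := fun n r =>
    ⟨(bot_le : (⊥ : IntermediateField K Ω) ≤ L.Ur ⊥ n) (hx r).1, (hx r).2⟩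
  have hpx : ∀ n : ℕ, Iv L (L.Ur ⊥ n) (π • x) := fun n r => by
    rw [Pi.smul_apply, smul_eq_mul]
    refine ⟨mul_mem (hπ.mem _) (hx' n r).1, ?_⟩
    rw [L.mul]
    exact mul_le_one₀ hπ.lt.le (L.nonneg _) (hx r).2
  have hsh : ∀ (n : ℕ) (c : Fin (d + 1) → Ω) (w : Ω), Gp L ψ (L.Ur ⊥ n) c w →
      Gp L ψ (L.Ur ⊥ n) (c + π • x) (sht L ψ w (c + π • x)) := fun n c w g =>
    (g.sh hψ (hpx n) hπ.lt fun r => by
      rw [Pi.smul_apply, smul_eq_mul, L.mul]
      exact mul_le_of_le_one_right (L.nonneg _) (hx r).2).1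
  refine ⟨fun n c w u u' hn _ g hu hu' => ga.add n c w x u u' hn g (hx' n) hu hu',
    fun n c w u hn _ g hu => ?_, fun n n' c w u b hn _ hn' hd g hu hb hb1 => ?_,
    fun n c w u h hn _ g hu hh => qk_near hπ hψ ga hn g hu (hx' n) hh,
    fun n a ρ S j τ hn _ ha hρ hS hS' hj hτ hτ' hr =>
      gk_crv hπ hψ hn (hx' n) ha hρ hS hS' hj hτ hτ' hr hs⟩
  · exact sub_mem (tk_pi hπ hψ hn (hsh n c w g) hu) (tk_pi hπ hψ hn g hu)
  · have h3 := tk_norm (f := f) (s := s) hπ hψ hn hn' hd (hsh n c w g) hu hb hb1 hs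
    have h4 := tk_norm (f := f) (s := s) hπ hψ hn hn' hd g hu hb hb1 hs
    have h5 := sub_mem h3 h4
    have e : Gk f L ψ π s x n' c w (b • u) -
        Gk f L ψ π s x n c w (Nm (L.Ur ⊥ n) (L.Ur ⊥ n') b • u) =
        (Tk f L ψ π s n' (c + π • x) (sht L ψ w (c + π • x)) (b • u) -
          Tk f L ψ π s n (c + π • x) (sht L ψ w (c + π • x))
            (Nm (L.Ur ⊥ n) (L.Ur ⊥ n') b • u)) -
        (Tk f L ψ π s n' c w (b • u) -
          Tk f L ψ π s n c w (Nm (L.Ur ⊥ n) (L.Ur ⊥ n') b • u)) := by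
      unfold Gk
      abel
    rw [e]
    exact h5

/-- Proof: `tk_add`, `tk_pi`, `tk_norm`, `tk_crv`; `near` is the hypothesis. -/
theorem tqk_vfn (hπ : Uf L π) (hψ : Pj f L ψ) (ga : Ga f L ψ π k s) (hW : Vl f L π (s + 1) ≤ W)
    (hs : s ≠ 0) (h : ∀ (n : ℕ) (c : Fin (d + 1) → Ω) (w : Ω) (x u : Fin (d + 1) → Ω), n ≠ 0 →
      k ∣ n → Gp L ψ (L.Ur ⊥ n) c w → Iv L (L.Ur ⊥ n) x → Iv L (L.Ur ⊥ n) u →
        Gk f L ψ π s x n c w u ∈ W) : Vfn f L ψ π k W (Tk f L ψ π s) := by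
  refine ⟨fun n c w u u' hn hk g hu hu' => ga.tad W hW h n c w u u' hn hk g hu hu',
    fun n c w u hn _ g hu => hW (tk_pi hπ hψ hn g hu),
    fun n n' c w u b hn _ hn' hd g hu hb hb1 => hW (tk_norm hπ hψ hn hn' hd g hu hb hb1 hs),
    fun n c w u y hn hk g hu hy => h n c w y u hn hk g hy hu,
    fun n a ρ S j τ hn _ ha hρ hS hS' hj hτ hτ' hr =>
      hW (tk_crv hπ hψ hn ha hρ hS hS' hj hτ hτ' hr hs)⟩

end GX
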